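import Pool.Agent.W205.K5.Stm0

/-! Project K5 (owner helper205), part LINE: lines below the curve, level `r ≥ 1`. -/

set_option autoImplicit false

namespace Pool.Agent.W589.K5

open Pool.Agent.W205.K5

theorem line (hU : S_UNI) : S_LINE := by
  intro k w g h r σ β hr hrk hσ hβ hyp
  have hW0 : 0 < w r := h.w0 r hrk.le
  have hW1 : w r ≤ 1 := h.w1 r hrk.le
  have hG0 : 0 < g r := h.gp r hrk.le
  have hjen : (r : ℝ) ≤ g r := h.jen r hrk.le
  have htop : g r ≤ k * w r := h.top r hrk.le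
  -- the index
  obtain ⟨n, hn1, hn2, hn3, hn4⟩ : ∃ n : ℕ, r ≤ n ∧ n < k ∧ (n : ℝ) * w r ≤ g r ∧
      g r ≤ (n + 1) * w r := by
    have hq0 : 0 ≤ g r / w r := by positivity
    have h1 : ((⌊g r / w r⌋₊ : ℕ) : ℝ) ≤ g r / w r := Nat.floor_le hq0
    have h2 : g r / w r < (⌊g r / w r⌋₊ : ℕ) + 1 := Nat.lt_floor_add_one _
    have h3 : r ≤ ⌊g r / w r⌋₊ := by
      apply Nat.le_floor
      rw [le_div_iff₀ hW0]
      calc (r : ℝ) * w r ≤ r * 1 := mul_le_mul_of_nonneg_left hW1 (by positivity)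
        _ = r := mul_one _
        _ ≤ g r := hjen
    by_cases h4 : ⌊g r / w r⌋₊ < k
    · refine ⟨_, h3, h4, ?_, ?_⟩
      · rw [le_div_iff₀ hW0] at h1; exact h1
      · rw [div_lt_iff₀ hW0] at h2; exact h2.le
    · have h5 : k ≤ ⌊g r / w r⌋₊ := not_lt.1 h4
      have h6 : (k : ℝ) ≤ g r / w r := le_trans (by exact_mod_cast h5) h1
      rw [le_div_iff₀ hW0] at h6
      have hk1 : ((k - 1 : ℕ) : ℝ) = k - 1 := by
        rw [Nat.cast_sub (by omega)]; simp
      refine ⟨k - 1, by omega, by omega, ?_, ?_⟩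
      · rw [hk1]; nlinarith
      · rw [hk1]; linarith
  have hn0 : 1 ≤ n := hr.trans hn1
  have hnR : (1 : ℝ) ≤ n := by exact_mod_cast hn0
  have hnp : (0 : ℝ) < n := by linarith
  have hch := h.ch r n hn1 hn2 hn3 hn4
  set W := w r with hW
  set G := g r with hG
  set t : ℝ := 1 - W / G with ht
  have hta : 1 - 1 / (n : ℝ) ≤ t := by
    have : W / G ≤ 1 / n := by
      rw [div_le_div_iff₀ hG0 hnp]; linarith
    rw [ht]; linarith
  have htb : t ≤ 1 - 1 / ((n : ℝ) + 1) := by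
    have : 1 / ((n : ℝ) + 1) ≤ W / G := by
      rw [div_le_div_iff₀ (by positivity) hG0]; linarith
    rw [ht]; linarith
  have ha0 : 0 ≤ 1 - 1 / (n : ℝ) := by
    have : 1 / (n : ℝ) ≤ 1 := by
      rw [div_le_one hnp]; exact hnR
    linarith
  have hua := hyp n hn1 hn2.le
  have hub := hyp (n + 1) (by omega) hn2
  have hUa : β / n ≤ (1 - 1 / (n : ℝ)) ^ (n - r) * ((1 + σ) - (1 - 1 / (n : ℝ))) := by
    rw [div_le_iff₀ hnp]
    refine hua.trans (le_of_eq ?_)
    have : ((1 + σ) - (1 - 1 / (n : ℝ))) * n = 1 + σ * n := by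
      field_simp; ring
    rw [mul_assoc, this]
  have hUb : β / n ≤ (1 - 1 / ((n : ℝ) + 1)) ^ (n - r) *
      ((1 + σ) - (1 - 1 / ((n : ℝ) + 1))) := by
    rw [div_le_iff₀ hnp]
    refine hub.trans (le_of_eq ?_)
    have e1 : n + 1 - r = (n - r) + 1 := by omega
    rw [e1, pow_succ]
    push_cast
    have : (1 - 1 / ((n : ℝ) + 1)) * (1 + σ * (n + 1)) =
        ((1 + σ) - (1 - 1 / ((n : ℝ) + 1))) * n := by
      field_simp; ring
    rw [mul_assoc, this, mul_assoc]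
  have hmain := hU (n - r) (1 - 1 / (n : ℝ)) t (1 - 1 / ((n : ℝ) + 1)) (1 + σ) (β / n) ha0 hta htb
    (by positivity) hUa hUb
  have hCt : 0 ≤ (1 + σ) - t := by
    have : 0 ≤ W / G := by positivity
    rw [ht]; linarith
  have hWG : W + σ * G = G * ((1 + σ) - t) := by
    rw [ht]; field_simp; ring
  rw [hWG]
  calc β = n * (β / n) := by field_simp
    _ ≤ n * (t ^ (n - r) * ((1 + σ) - t)) := mul_le_mul_of_nonneg_left hmain hnp.le
    _ = (n * t ^ (n - r)) * ((1 + σ) - t) := by ring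
    _ ≤ G * ((1 + σ) - t) := mul_le_mul_of_nonneg_right hch hCt

end Pool.Agent.W589.K5
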